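import Pool.Agent.W770.PC.Stms
import Pool.Agent.W770.SA.Poly
import Pool.Agent.H805R3.Kk.AreaP

set_option autoImplicit false

open MeasureTheory Set Filter Topology
open scoped ENNReal NNReal

namespace Pool.Agent.W12.PC

open Pool.Agent.W770.PC
open Pool.Agent.H803R2.Kak

/-- the identification of the plane with the Euclidean plane -/
noncomputable def eu (z : ℝ × ℝ) : EuclideanSpace ℝ (Fin 2) := WithLp.toLp 2 ![z.1, z.2]

lemma eu_mp : MeasurePreserving eu := by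
  have h1 := (volume_preserving_finTwoArrow ℝ).symm
  have h2 := (PiLp.volume_preserving_toLp (Fin 2))
  have h := h2.comp h1
  have e : eu = (WithLp.toLp 2 ∘ ⇑(MeasurableEquiv.finTwoArrow (α := ℝ)).symm) := by
    funext z
    simp [eu, MeasurableEquiv.finTwoArrow, MeasurableEquiv.piFinTwo, piFinTwoEquiv]
  rw [e]
  exact h

lemma eu_inj : Function.Injective eu := by
  intro a b h
  have h0 : (eu a) 0 = (eu b) 0 := by rw [h]
  have h1 : (eu a) 1 = (eu b) 1 := by rw [h]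
  simp [eu] at h0 h1
  exact Prod.ext h0 h1

lemma pf_mem_Pol (p : MvPolynomial (Fin 2) ℝ) {k : ℕ} (hp : p.totalDegree ≤ k) :
    (fun v : EuclideanSpace ℝ (Fin 2) => pf p (v 0, v 1)) ∈ Pol 2 k := by
  have h : (fun v : EuclideanSpace ℝ (Fin 2) => pf p (v 0, v 1)) = ∑ m ∈ p.support,
      MvPolynomial.coeff m p • ∏ i : Fin 2, (fun v : EuclideanSpace ℝ (Fin 2) => v i) ^ (m i) := by
    ext v
    unfold pf
    rw [MvPolynomial.eval_eq']
    simp [Finset.sum_apply, Fin.prod_univ_two]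
  rw [h]
  apply Submodule.sum_mem
  intro m hm
  apply Submodule.smul_mem
  have h1 := Pool.Agent.W770.SA.prod_mem_Pol' (n := 2) Finset.univ (fun i : Fin 2 =>
    (fun v : EuclideanSpace ℝ (Fin 2) => v i) ^ (m i)) (fun i => m i)
    (fun i _ => by simpa using pow_mem_Pol (coord_mem_Pol i le_rfl) (m i))
  refine Pol_mono ?_ h1
  calc ∑ i, m i = m.sum (fun _ e => e) := by
        rw [Finsupp.sum_fintype _ _ (fun _ => rfl)]
    _ ≤ p.totalDegree := MvPolynomial.le_totalDegree hm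
    _ ≤ k := hp

/-- fibres of pairs of polynomials -/
lemma fibre_pair (p q : MvPolynomial (Fin 2) ℝ) {k : ℕ} (hk : 1 ≤ k) (hp : p.totalDegree ≤ k)
    (hq : q.totalDegree ≤ k) :
    ∀ᵐ z : ℝ × ℝ, {y : ℝ × ℝ | (pf p y, pf q y) = z}.encard ≤ ((((1 + 2 * k) ^ 2) ^ 2 : ℕ) : ℕ∞) := by
  have h := ae_fibre_le (d := 2) (by norm_num) k hk
    (fun v => eu (pf p (v 0, v 1), pf q (v 0, v 1))) (by
      intro j
      fin_cases j
      · simpa [eu] using pf_mem_Pol p hp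
      · simpa [eu] using pf_mem_Pol q hq)
  have h2 := eu_mp.quasiMeasurePreserving.ae h
  filter_upwards [h2] with z hz
  refine le_trans ?_ hz
  rw [← eu_inj.encard_image]
  apply Set.encard_le_encard
  rintro _ ⟨y, hy, rfl⟩
  simp only [Set.mem_ofPred_eq] at hy ⊢
  rw [← hy]
  congr 1

/-- determinant of a map of the plane -/
lemma det_pair (a b c d : ℝ) :
    (((a • ContinuousLinearMap.fst ℝ ℝ ℝ + b • ContinuousLinearMap.snd ℝ ℝ ℝ).prod
      (c • ContinuousLinearMap.fst ℝ ℝ ℝ + d • ContinuousLinearMap.snd ℝ ℝ ℝ) :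
      ℝ × ℝ →L[ℝ] ℝ × ℝ)).det = a * d - b * c := by
  rw [ContinuousLinearMap.det, ← LinearMap.det_toMatrix (Module.Basis.finTwoProd ℝ),
    Matrix.det_fin_two]
  simp [LinearMap.toMatrix_apply]

theorem area_thm (h1 : S_dpf) (h2 : S_der) : S_area := by
  intro D
  set k : ℕ := max D 1 with hk
  refine ⟨((((1 + 2 * k) ^ 2) ^ 2 : ℕ) : ℝ), by positivity, ?_⟩
  intro Q hQ φ hφ
  obtain ⟨hsm, hd1, hd2, -, -⟩ := h1 Q
  have hk1 : 1 ≤ k := le_max_right _ _
  have hQ1 : (MvPolynomial.pderiv 0 Q).totalDegree ≤ k :=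
    (Pool.Agent.W770.SA.totalDegree_pderiv_le Q 0).trans (hQ.trans (le_max_left _ _))
  have hQ2 : (MvPolynomial.pderiv 1 Q).totalDegree ≤ k :=
    (Pool.Agent.W770.SA.totalDegree_pderiv_le Q 1).trans (hQ.trans (le_max_left _ _))
  obtain ⟨hsm1, hsm2, -, -, -, hcomm, -⟩ := h2 (pf Q) hsm
  obtain ⟨c11, c12, -, -, hF1, -⟩ := h2 (d1 (pf Q)) hsm1
  obtain ⟨c21, c22, -, -, hF2, -⟩ := h2 (d2 (pf Q)) hsm2
  set G : ℝ × ℝ → ℝ × ℝ := fun y => (d1 (pf Q) y, d2 (pf Q) y) with hG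
  set G' : ℝ × ℝ → ℝ × ℝ →L[ℝ] ℝ × ℝ := fun y =>
    ((d1 (d1 (pf Q)) y) • ContinuousLinearMap.fst ℝ ℝ ℝ +
      (d2 (d1 (pf Q)) y) • ContinuousLinearMap.snd ℝ ℝ ℝ).prod
    ((d1 (d2 (pf Q)) y) • ContinuousLinearMap.fst ℝ ℝ ℝ +
      (d2 (d2 (pf Q)) y) • ContinuousLinearMap.snd ℝ ℝ ℝ) with hG'
  have hGd : ∀ y, HasFDerivAt G (G' y) y := fun y => (hF1 y).prodMk (hF2 y)
  have hdet : ∀ y, (G' y).det = det2 (pf Q) y := by
    intro y
    rw [hG', det_pair, hcomm y]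
    unfold det2
    ring
  have hG'c : Continuous G' := by
    have e : ∀ y, G' y = fderiv ℝ G y := fun y => (hGd y).fderiv.symm
    have hsmG : ContDiff ℝ (⊤ : ℕ∞) G := hsm1.prodMk hsm2
    have : G' = fderiv ℝ G := funext e
    rw [this]
    exact hsmG.continuous_fderiv (by simp)
  have hfib : ∀ᵐ z : ℝ × ℝ, {y : ℝ × ℝ | G y = z}.encard ≤ ((((1 + 2 * k) ^ 2) ^ 2 : ℕ) : ℕ∞) := by
    have := fibre_pair (MvPolynomial.pderiv 0 Q) (MvPolynomial.pderiv 1 Q) hk1 hQ1 hQ2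
    rw [hG, hd1, hd2]
    exact this
  set P : ℕ → Set (ℝ × ℝ) := fun n => if n = 0 then univ else ∅ with hP
  have hPu : (⋃ n, P n) = univ := by
    rw [Set.eq_univ_iff_forall]
    intro x
    exact Set.mem_iUnion.mpr ⟨0, by simp [hP]⟩
  have key := Pool.Agent.H805R3.Kk.lintegral_comp_det_leP (μ := (volume : Measure (ℝ × ℝ)))
    (φ := G) (φ' := G') (P := P) (N := ((1 + 2 * k) ^ 2) ^ 2)
    (by intro n; by_cases hn : n = 0 <;> simp [hP, hn])
    (by
      intro i j hij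
      simp only [Function.onFun, hP]
      by_cases hi : i = 0
      · have hj : j ≠ 0 := by omega
        simp [hj]
      · simp [hi])
    (fun n x _ => (hGd x).hasFDerivWithinAt) hG'c.measurable
    (by
      filter_upwards [hfib] with z hz
      refine le_trans (Set.encard_le_encard ?_) hz
      rintro x ⟨-, hx, -⟩
      exact hx) hφ
  rw [hPu, Measure.restrict_univ] at key
  simp only [hdet] at key
  rw [ENNReal.ofReal_natCast]
  exact key

end Pool.Agent.W12.PC
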