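import Pool.Agent.W770.PC.Stms

set_option autoImplicit false

/-!
PC-norm: norm equivalences for polynomials of bounded degree (helper12).
-/

open MeasureTheory Set Filter Topology
open scoped ENNReal NNReal

namespace Pool.Agent.W12.PC

open Pool.Agent.W770.PC

/-! ### The functions with coefficients `c` -/

/-- coefficient vectors -/
abbrev CV (D : ℕ) := Fin (D + 1) × Fin (D + 1) → ℝ

/-- the polynomial function -/
noncomputable def FF {D : ℕ} (c : CV D) (y : ℝ × ℝ) : ℝ :=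
  ∑ p, c p * (y.1 ^ (p.1 : ℕ) * y.2 ^ (p.2 : ℕ))

/-- exponents -/
noncomputable def mm {D : ℕ} (p : Fin (D + 1) × Fin (D + 1)) : Fin 2 →₀ ℕ :=
  Finsupp.single 0 (p.1 : ℕ) + Finsupp.single 1 (p.2 : ℕ)

theorem mm_inj {D : ℕ} : Function.Injective (mm : Fin (D + 1) × Fin (D + 1) → _) := by
  intro p q h
  have h0 := DFunLike.congr_fun h 0
  have h1 := DFunLike.congr_fun h 1
  simp [mm] at h0 h1
  exact Prod.ext (Fin.ext h0) (Fin.ext h1)

/-- the polynomial with coefficients `c` -/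
noncomputable def PL {D : ℕ} (c : CV D) : MvPolynomial (Fin 2) ℝ :=
  ∑ p, MvPolynomial.monomial (mm p) (c p)

theorem pf_PL {D : ℕ} (c : CV D) (y : ℝ × ℝ) : pf (PL c) y = FF c y := by
  unfold pf PL FF
  rw [map_sum]
  refine Finset.sum_congr rfl fun p _ => ?_
  rw [MvPolynomial.eval_monomial]
  congr 1
  unfold mm
  rw [Finsupp.prod_add_index' (by simp) (by intros; rw [pow_add]),
    Finsupp.prod_single_index (by simp), Finsupp.prod_single_index (by simp)]
  simp

theorem coeff_PL {D : ℕ} (c : CV D) (p : Fin (D + 1) × Fin (D + 1)) :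
    MvPolynomial.coeff (mm p) (PL c) = c p := by
  unfold PL
  rw [MvPolynomial.coeff_sum]
  simp_rw [MvPolynomial.coeff_monomial]
  rw [Finset.sum_eq_single p]
  · simp
  · intro q _ hq
    rw [if_neg fun h => hq (mm_inj h)]
  · intro h
    exact absurd (Finset.mem_univ p) h

theorem eq_PL {D : ℕ} (Q : MvPolynomial (Fin 2) ℝ) (hQ : Q.totalDegree ≤ D) :
    Q = PL (fun p : Fin (D + 1) × Fin (D + 1) => MvPolynomial.coeff (mm p) Q) := by
  ext m
  by_cases h : m 0 ≤ D ∧ m 1 ≤ D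
  · have e : m = mm ((⟨m 0, by omega⟩, ⟨m 1, by omega⟩) : Fin (D + 1) × Fin (D + 1)) := by
      ext i
      fin_cases i
      · simp [mm]
      · simp [mm]
    conv_rhs => rw [e]
    rw [coeff_PL, ← e]
  · have h1 : MvPolynomial.coeff m Q = 0 := by
      by_contra hne
      have h2 := MvPolynomial.le_totalDegree (MvPolynomial.mem_support_iff.2 hne)
      have h3 : m.sum (fun _ e => e) = m 0 + m 1 := by
        rw [Finsupp.sum_fintype _ _ (by simp)]
        simp [Fin.sum_univ_two]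
      rw [h3] at h2
      omega
    rw [h1]
    unfold PL
    rw [MvPolynomial.coeff_sum]
    symm
    refine Finset.sum_eq_zero fun p _ => ?_
    rw [MvPolynomial.coeff_monomial, if_neg]
    rintro rfl
    apply h
    simp [mm]
    omega

theorem FF_cont {D : ℕ} : Continuous (fun z : CV D × (ℝ × ℝ) => FF z.1 z.2) := by
  unfold FF
  fun_prop

theorem FF_smul {D : ℕ} (a : ℝ) (c : CV D) (y : ℝ × ℝ) : FF (a • c) y = a * FF c y := by
  unfold FF
  rw [Finset.mul_sum]
  refine Finset.sum_congr rfl fun p _ => ?_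
  simp
  ring

/-- the norm -/
noncomputable def NV {D : ℕ} (c : CV D) : ℝ := ∫ v in box 0 1, |FF c v|

theorem box_compact (w : ℝ × ℝ) (r : ℝ) : IsCompact (box w r) := isCompact_Icc.prod isCompact_Icc

theorem NV_cont {D : ℕ} : Continuous (NV : CV D → ℝ) := by
  unfold NV
  refine continuous_parametric_integral_of_continuous ?_ (box_compact 0 1)
  exact FF_cont.abs

theorem NV_pos {D : ℕ} {c : CV D} (hc : c ≠ 0) : 0 < NV c := by
  have h0 : 0 ≤ NV c := setIntegral_nonneg (box_compact 0 1).measurableSet fun _ _ => abs_nonneg _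
  rcases h0.lt_or_eq with h | h
  · exact h
  · exfalso
    have hcont : Continuous (fun v => |FF c v|) := (FF_cont.comp (by fun_prop :
      Continuous fun v : ℝ × ℝ => (c, v))).abs
    have h1 : (fun v => |FF c v|) =ᵐ[volume.restrict (box 0 1)] 0 := by
      rw [← setIntegral_eq_zero_iff_of_nonneg_ae]
      · exact h.symm
      · exact Eventually.of_forall fun _ => abs_nonneg _
      · exact hcont.continuousOn.integrableOn_compact (box_compact 0 1)
    set U : Set (ℝ × ℝ) := Ioo (-1) 1 ×ˢ Ioo (-1) 1 with hU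
    have hUo : IsOpen U := isOpen_Ioo.prod isOpen_Ioo
    have hUb : U ⊆ box 0 1 := by
      intro v hv
      rw [hU, mem_prod] at hv
      unfold box
      rw [mem_prod]
      simp only [Prod.fst_zero, Prod.snd_zero, zero_sub, zero_add]
      exact ⟨Ioo_subset_Icc_self hv.1, Ioo_subset_Icc_self hv.2⟩
    have h2 : ∀ v ∈ U, |FF c v| = 0 := by
      have h3 : (fun v => |FF c v|) =ᵐ[volume.restrict U] 0 :=
        ae_restrict_of_ae_restrict_of_subset hUb h1
      have h4 := Measure.eqOn_open_of_ae_eq h3 hUo hcont.continuousOn continuousOn_const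
      exact fun v hv => h4 hv
    have h5 : PL c = 0 := by
      refine MvPolynomial.funext_set (fun _ : Fin 2 => Ioo (-1 : ℝ) 1)
        (fun _ => Ioo_infinite (by norm_num)) fun x hx => ?_
      have e : x = ![x 0, x 1] := by
        funext i
        fin_cases i <;> simp
      have h6 : FF c (x 0, x 1) = 0 := abs_eq_zero.1 (h2 _ ⟨hx 0 (mem_univ _), hx 1 (mem_univ _)⟩)
      rw [← pf_PL] at h6
      unfold pf at h6
      rw [map_zero, e]
      exact h6
    apply hc
    funext p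
    rw [← coeff_PL c p, h5]
    simp

theorem NV_smul {D : ℕ} (a : ℝ) (c : CV D) : NV (a • c) = |a| * NV c := by
  unfold NV
  rw [← integral_const_mul]
  congr 1
  funext v
  rw [FF_smul, abs_mul]

theorem norm_le_NV (D : ℕ) : ∃ K : ℝ, 0 < K ∧ ∀ c : CV D, ‖c‖ ≤ K * NV c := by
  have hS : IsCompact (Metric.sphere (0 : CV D) 1) := isCompact_sphere _ _
  have hne : (Metric.sphere (0 : CV D) 1).Nonempty := NormedSpace.sphere_nonempty.2 zero_le_one
  obtain ⟨c0, hc0, hmin⟩ := hS.exists_isMinOn hne NV_cont.continuousOn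
  have hc0' : c0 ≠ 0 := by
    intro h
    rw [h] at hc0
    simp at hc0
  have hpos := NV_pos hc0'
  refine ⟨(NV c0)⁻¹, by positivity, fun c => ?_⟩
  by_cases hc : c = 0
  · rw [hc, norm_zero]
    exact mul_nonneg (by positivity)
      (setIntegral_nonneg (box_compact 0 1).measurableSet fun _ _ => abs_nonneg _)
  · have hn : 0 < ‖c‖ := norm_pos_iff.2 hc
    have h1 : ‖c‖⁻¹ • c ∈ Metric.sphere (0 : CV D) 1 := by
      rw [mem_sphere_zero_iff_norm, norm_smul, norm_inv, norm_norm, inv_mul_cancel₀ hn.ne']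
    have h2 : NV c0 ≤ NV (‖c‖⁻¹ • c) := hmin h1
    rw [NV_smul, abs_of_pos (by positivity)] at h2
    rw [inv_mul_eq_div, le_div_iff₀ hpos]
    calc ‖c‖ * NV c0 ≤ ‖c‖ * (‖c‖⁻¹ * NV c) := mul_le_mul_of_nonneg_left h2 hn.le
      _ = NV c := by field_simp

/-! ### Affine substitution -/

/-- the coefficients after the substitution `y = w + s v` -/
noncomputable def sub {D : ℕ} (w : ℝ × ℝ) (s : ℝ) (c : CV D) : CV D := fun q =>
  ∑ p : Fin (D + 1) × Fin (D + 1), c p *
    ((w.1 ^ ((p.1 : ℕ) - q.1) * s ^ (q.1 : ℕ) * ((p.1 : ℕ).choose q.1)) *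
      (w.2 ^ ((p.2 : ℕ) - q.2) * s ^ (q.2 : ℕ) * ((p.2 : ℕ).choose q.2)))

theorem pow_sub' (D : ℕ) (i : Fin (D + 1)) (w s v : ℝ) : (w + s * v) ^ (i : ℕ)
    = ∑ k : Fin (D + 1), w ^ ((i : ℕ) - k) * s ^ (k : ℕ) * ((i : ℕ).choose k) * v ^ (k : ℕ) := by
  rw [Fin.sum_univ_eq_sum_range
    (fun k => w ^ ((i : ℕ) - k) * s ^ k * ((i : ℕ).choose k) * v ^ k) (D + 1), add_comm w, add_pow]
  have hsub : Finset.range ((i : ℕ) + 1) ⊆ Finset.range (D + 1) :=
    Finset.range_subset_range.2 (by omega)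
  rw [← Finset.sum_subset hsub]
  · refine Finset.sum_congr rfl fun k _ => ?_
    rw [mul_pow]
    ring
  · intro k _ hk
    rw [Finset.mem_range, not_lt] at hk
    rw [Nat.choose_eq_zero_of_lt (by omega)]
    simp

theorem FF_sub {D : ℕ} (w : ℝ × ℝ) (s : ℝ) (c : CV D) (v : ℝ × ℝ) :
    FF (sub w s c) v = FF c (w + s • v) := by
  unfold FF sub
  have e : ∀ p : Fin (D + 1) × Fin (D + 1), c p * ((w + s • v).1 ^ (p.1 : ℕ)
      * (w + s • v).2 ^ (p.2 : ℕ)) = ∑ q : Fin (D + 1) × Fin (D + 1), c p *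
    ((w.1 ^ ((p.1 : ℕ) - q.1) * s ^ (q.1 : ℕ) * ((p.1 : ℕ).choose q.1)) *
      (w.2 ^ ((p.2 : ℕ) - q.2) * s ^ (q.2 : ℕ) * ((p.2 : ℕ).choose q.2)))
        * (v.1 ^ (q.1 : ℕ) * v.2 ^ (q.2 : ℕ)) := by
    intro p
    have h1 : (w + s • v).1 = w.1 + s * v.1 := rfl
    have h2 : (w + s • v).2 = w.2 + s * v.2 := rfl
    rw [h1, h2, pow_sub', pow_sub', Finset.sum_mul_sum, ← Finset.univ_product_univ,
      Finset.sum_product, Finset.mul_sum]
    refine Finset.sum_congr rfl fun a _ => ?_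
    rw [Finset.mul_sum]
    refine Finset.sum_congr rfl fun b _ => ?_
    ring
  rw [Finset.sum_congr rfl fun p _ => e p, Finset.sum_comm]
  refine Finset.sum_congr rfl fun q _ => ?_
  rw [Finset.sum_mul]

theorem box_eq (w : ℝ × ℝ) (r : ℝ) : box w r = Metric.closedBall w r := by
  unfold box
  rw [← Real.closedBall_eq_Icc, ← Real.closedBall_eq_Icc, closedBall_prod_same]

theorem int_sub (f : ℝ × ℝ → ℝ) (w : ℝ × ℝ) {s : ℝ} (hs : 0 < s) :
    ∫ v in box 0 1, f (w + s • v) = (s ^ 2)⁻¹ * ∫ y in box w s, f y := by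
  rw [← integral_indicator (box_compact 0 1).measurableSet,
    ← integral_indicator (box_compact w s).measurableSet]
  have e : (box 0 1).indicator (fun v => f (w + s • v))
      = fun v => (box w s).indicator f (w + s • v) := by
    funext v
    have hiff : v ∈ box 0 1 ↔ w + s • v ∈ box w s := by
      rw [box_eq, box_eq, mem_closedBall_zero_iff, Metric.mem_closedBall, dist_eq_norm,
        add_sub_cancel_left, norm_smul, Real.norm_of_nonneg hs.le]
      constructor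
      · intro h
        exact mul_le_of_le_one_right hs.le h
      · intro h
        by_contra hcon
        push Not at hcon
        nlinarith
    by_cases hv : v ∈ box 0 1
    · rw [indicator_of_mem hv, indicator_of_mem (hiff.1 hv)]
    · rw [indicator_of_notMem hv, indicator_of_notMem (fun h => hv (hiff.2 h))]
  rw [e]
  have h1 := Measure.integral_comp_smul (volume : Measure (ℝ × ℝ))
    (fun u => (box w s).indicator f (w + u)) s
  have h2 : ∫ u, (box w s).indicator f (w + u) = ∫ u, (box w s).indicator f u :=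
    integral_add_left_eq_self _ w
  have hd : Module.finrank ℝ (ℝ × ℝ) = 2 := by simp
  rw [hd, h2, smul_eq_mul, abs_of_pos (by positivity)] at h1
  exact h1

/-! ### Bounds in terms of the coefficients -/

theorem pow_le8 {D : ℕ} {x : ℝ} (hx : |x| ≤ 8) {i : ℕ} (hi : i ≤ D) : |x| ^ i ≤ 8 ^ D :=
  (pow_le_pow_left₀ (abs_nonneg _) hx i).trans (pow_le_pow_right₀ (by norm_num) hi)

theorem abs_le_norm {D : ℕ} (c : CV D) (p : Fin (D + 1) × Fin (D + 1)) : |c p| ≤ ‖c‖ :=
  norm_le_pi_norm c p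

/-- the constant -/
noncomputable def KD (D : ℕ) : ℝ := ((D + 1) * (D + 1)) * (D + 1) * (8 ^ D * 8 ^ D)

theorem card_eq (D : ℕ) (x : ℝ) : ∑ _p : Fin (D + 1) × Fin (D + 1), x
    = ((D + 1) * (D + 1)) * x := by
  rw [Finset.sum_const, Finset.card_univ, Fintype.card_prod, Fintype.card_fin, nsmul_eq_mul]
  push_cast
  ring

theorem FF_le {D : ℕ} (c : CV D) {y : ℝ × ℝ} (h1 : |y.1| ≤ 8) (h2 : |y.2| ≤ 8) :
    |FF c y| ≤ KD D * ‖c‖ := by
  unfold FF
  refine (Finset.abs_sum_le_sum_abs _ _).trans ?_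
  have h : ∀ p ∈ (Finset.univ : Finset (Fin (D + 1) × Fin (D + 1))),
      |c p * (y.1 ^ (p.1 : ℕ) * y.2 ^ (p.2 : ℕ))| ≤ ‖c‖ * (8 ^ D * 8 ^ D) := by
    intro p _
    rw [abs_mul, abs_mul, abs_pow, abs_pow]
    have e1 := pow_le8 h1 (by omega : (p.1 : ℕ) ≤ D)
    have e2 := pow_le8 h2 (by omega : (p.2 : ℕ) ≤ D)
    have e3 := abs_le_norm c p
    gcongr
  refine (Finset.sum_le_sum h).trans ?_
  rw [card_eq]
  unfold KD
  have : (1 : ℝ) ≤ D + 1 := by linarith [Nat.cast_nonneg (α := ℝ) D]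
  have h9 : 0 ≤ ((D : ℝ) + 1) * (D + 1) * (‖c‖ * (8 ^ D * 8 ^ D)) := by positivity
  nlinarith

theorem d1_FF {D : ℕ} (c : CV D) (y : ℝ × ℝ) : HasDerivAt (fun u => FF c (u, y.2))
    (∑ p, c p * (((p.1 : ℕ) * y.1 ^ ((p.1 : ℕ) - 1)) * y.2 ^ (p.2 : ℕ))) y.1 := by
  unfold FF
  refine HasDerivAt.fun_sum fun p _ => ?_
  exact ((hasDerivAt_pow (p.1 : ℕ) y.1).mul_const (y.2 ^ (p.2 : ℕ))).const_mul (c p)

theorem d2_FF {D : ℕ} (c : CV D) (y : ℝ × ℝ) : HasDerivAt (fun u => FF c (y.1, u))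
    (∑ p, c p * (y.1 ^ (p.1 : ℕ) * ((p.2 : ℕ) * y.2 ^ ((p.2 : ℕ) - 1)))) y.2 := by
  unfold FF
  refine HasDerivAt.fun_sum fun p _ => ?_
  exact ((hasDerivAt_pow (p.2 : ℕ) y.2).const_mul (y.1 ^ (p.1 : ℕ))).const_mul (c p)

theorem d1_FF_le {D : ℕ} (c : CV D) {y : ℝ × ℝ} (h1 : |y.1| ≤ 8) (h2 : |y.2| ≤ 8) :
    |∑ p, c p * (((p.1 : ℕ) * y.1 ^ ((p.1 : ℕ) - 1)) * y.2 ^ (p.2 : ℕ))| ≤ KD D * ‖c‖ := by
  refine (Finset.abs_sum_le_sum_abs _ _).trans ?_
  have h : ∀ p ∈ (Finset.univ : Finset (Fin (D + 1) × Fin (D + 1))),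
      |c p * (((p.1 : ℕ) * y.1 ^ ((p.1 : ℕ) - 1)) * y.2 ^ (p.2 : ℕ))|
        ≤ ‖c‖ * (((D + 1) * 8 ^ D) * 8 ^ D) := by
    intro p _
    rw [abs_mul, abs_mul, abs_mul, abs_pow, abs_pow, Nat.abs_cast]
    have e1 := pow_le8 h1 (by omega : (p.1 : ℕ) - 1 ≤ D)
    have e2 := pow_le8 h2 (by omega : (p.2 : ℕ) ≤ D)
    have e3 := abs_le_norm c p
    have e4 : ((p.1 : ℕ) : ℝ) ≤ D + 1 := by exact_mod_cast (by omega : (p.1 : ℕ) ≤ D + 1)
    gcongr
  refine (Finset.sum_le_sum h).trans (le_of_eq ?_)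
  rw [card_eq]
  unfold KD
  ring

theorem d2_FF_le {D : ℕ} (c : CV D) {y : ℝ × ℝ} (h1 : |y.1| ≤ 8) (h2 : |y.2| ≤ 8) :
    |∑ p, c p * (y.1 ^ (p.1 : ℕ) * ((p.2 : ℕ) * y.2 ^ ((p.2 : ℕ) - 1)))| ≤ KD D * ‖c‖ := by
  refine (Finset.abs_sum_le_sum_abs _ _).trans ?_
  have h : ∀ p ∈ (Finset.univ : Finset (Fin (D + 1) × Fin (D + 1))),
      |c p * (y.1 ^ (p.1 : ℕ) * ((p.2 : ℕ) * y.2 ^ ((p.2 : ℕ) - 1)))|
        ≤ ‖c‖ * (8 ^ D * ((D + 1) * 8 ^ D)) := by
    intro p _
    rw [abs_mul, abs_mul, abs_mul, abs_pow, abs_pow, Nat.abs_cast]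
    have e1 := pow_le8 h1 (by omega : (p.1 : ℕ) ≤ D)
    have e2 := pow_le8 h2 (by omega : (p.2 : ℕ) - 1 ≤ D)
    have e3 := abs_le_norm c p
    have e4 : ((p.2 : ℕ) : ℝ) ≤ D + 1 := by exact_mod_cast (by omega : (p.2 : ℕ) ≤ D + 1)
    gcongr
  refine (Finset.sum_le_sum h).trans (le_of_eq ?_)
  rw [card_eq]
  unfold KD
  ring

theorem norm_thm (h1 : S_dpf) : S_norm := by
  intro D
  obtain ⟨K, hK, hKb⟩ := norm_le_NV D
  refine ⟨KD D * K, by unfold KD; positivity, fun Q hQ w s hs y hy => ?_⟩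
  set c : CV D := fun p => MvPolynomial.coeff (mm p) Q with hc
  have hQc : Q = PL c := eq_PL Q hQ
  have hpf : ∀ y, pf Q y = FF c y := fun y => by rw [hQc, pf_PL]
  -- the rescaled point
  set v : ℝ × ℝ := s⁻¹ • (y - w) with hv
  have hyv : y = w + s • v := by
    rw [hv, smul_smul, mul_inv_cancel₀ hs.ne', one_smul]
    abel
  have hv8 : ‖v‖ ≤ 8 := by
    rw [box_eq, Metric.mem_closedBall, dist_eq_norm] at hy
    rw [hv, norm_smul, norm_inv, Real.norm_of_nonneg hs.le, inv_mul_le_iff₀ hs]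
    linarith
  have hv1 : |v.1| ≤ 8 := (norm_fst_le v).trans hv8
  have hv2 : |v.2| ≤ 8 := (norm_snd_le v).trans hv8
  set c' := sub w s c with hc'
  -- the integral
  have hN : NV c' = (s ^ 2)⁻¹ * ∫ y in box w s, |pf Q y| := by
    unfold NV
    rw [← int_sub (fun y => |pf Q y|) w hs]
    congr 1
    funext u
    rw [hc', FF_sub, hpf]
  have hI : 0 ≤ ∫ y in box w s, |pf Q y| :=
    setIntegral_nonneg (box_compact w s).measurableSet fun _ _ => abs_nonneg _
  have hKc := hKb c'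
  have hKD : 0 ≤ KD D := by unfold KD; positivity
  have hb : KD D * ‖c'‖ ≤ KD D * K / s ^ 2 * ∫ y in box w s, |pf Q y| := by
    calc KD D * ‖c'‖ ≤ KD D * (K * NV c') := mul_le_mul_of_nonneg_left hKc hKD
      _ = KD D * K / s ^ 2 * ∫ y in box w s, |pf Q y| := by rw [hN]; ring
  have hb3 : s⁻¹ * (KD D * ‖c'‖) ≤ KD D * K / s ^ 3 * ∫ y in box w s, |pf Q y| := by
    calc s⁻¹ * (KD D * ‖c'‖) ≤ s⁻¹ * (KD D * K / s ^ 2 * ∫ y in box w s, |pf Q y|) :=
          mul_le_mul_of_nonneg_left hb (by positivity)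
      _ = _ := by field_simp
  obtain ⟨hsm, hd1, hd2, -, -⟩ := h1 Q
  have hdiff : Differentiable ℝ (pf Q) := hsm.differentiable (by simp)
  refine ⟨?_, ?_, ?_⟩
  · have : |pf Q y| ≤ KD D * ‖c'‖ := by
      rw [hpf, hyv, ← FF_sub]
      exact FF_le c' hv1 hv2
    exact this.trans hb
  · rw [← hd1]
    have e1 : HasDerivAt (fun u => FF c' (u, v.2)) (s * d1 (pf Q) y) v.1 := by
      have e2 : (fun u => FF c' (u, v.2)) = fun u => pf Q (w.1 + s * u, w.2 + s * v.2) := by
        funext u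
        rw [hc', FF_sub, hpf]
        rfl
      rw [e2]
      have e3 : HasDerivAt (fun u => pf Q (u, y.2)) (d1 (pf Q) y) y.1 := by
        have : DifferentiableAt ℝ (fun u => pf Q (u, y.2)) y.1 :=
          (hdiff _).comp y.1 (by fun_prop)
        exact this.hasDerivAt
      have e4 : y.2 = w.2 + s * v.2 := congrArg Prod.snd hyv
      have e5 : y.1 = w.1 + s * v.1 := congrArg Prod.fst hyv
      rw [e4] at e3
      rw [e5] at e3
      have e6 : HasDerivAt (fun u => w.1 + s * u) s v.1 := by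
        simpa using ((hasDerivAt_id v.1).const_mul s).const_add w.1
      have := e3.comp v.1 e6
      rw [mul_comm s (d1 (pf Q) y)]
      exact this
    have e7 := (d1_FF c' v).unique e1
    have e8 := d1_FF_le c' hv1 hv2
    rw [e7, abs_mul, abs_of_pos hs] at e8
    refine le_trans ?_ hb3
    rw [inv_mul_eq_div, le_div_iff₀ hs, mul_comm]
    exact e8
  · rw [← hd2]
    have e1 : HasDerivAt (fun u => FF c' (v.1, u)) (s * d2 (pf Q) y) v.2 := by
      have e2 : (fun u => FF c' (v.1, u)) = fun u => pf Q (w.1 + s * v.1, w.2 + s * u) := by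
        funext u
        rw [hc', FF_sub, hpf]
        rfl
      rw [e2]
      have e3 : HasDerivAt (fun u => pf Q (y.1, u)) (d2 (pf Q) y) y.2 := by
        have : DifferentiableAt ℝ (fun u => pf Q (y.1, u)) y.2 :=
          (hdiff _).comp y.2 (by fun_prop)
        exact this.hasDerivAt
      have e4 : y.2 = w.2 + s * v.2 := congrArg Prod.snd hyv
      have e5 : y.1 = w.1 + s * v.1 := congrArg Prod.fst hyv
      rw [e5] at e3
      rw [e4] at e3
      have e6 : HasDerivAt (fun u => w.2 + s * u) s v.2 := by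
        simpa using ((hasDerivAt_id v.2).const_mul s).const_add w.2
      have := e3.comp v.2 e6
      rw [mul_comm s (d2 (pf Q) y)]
      exact this
    have e7 := (d2_FF c' v).unique e1
    have e8 := d2_FF_le c' hv1 hv2
    rw [e7, abs_mul, abs_of_pos hs] at e8
    refine le_trans ?_ hb3
    rw [inv_mul_eq_div, le_div_iff₀ hs, mul_comm]
    exact e8

end Pool.Agent.W12.PC
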