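import Pool.Agent.W12.PC.Scale

set_option autoImplicit false

/-!
PC-rect: cutting off to a rectangle (helper12).
-/

open MeasureTheory Set Filter Topology
open scoped ENNReal NNReal

namespace Pool.Agent.W12.PC

open Pool.Agent.W770.PC

/-! ### Parametric integrals of smooth functions with compact support -/

theorem bound_of {G : ℝ × ℝ → ℂ} (hG : Continuous G) (hc : HasCompactSupport G) :
    ∃ (M : ℝ) (K : Set ℝ), IsCompact K ∧ (∀ z, ‖G z‖ ≤ M) ∧ ∀ u v, v ∉ K → G (u, v) = 0 := by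
  obtain ⟨M, hM⟩ := hc.exists_bound_of_continuous hG
  refine ⟨M, Prod.snd '' (tsupport G), hc.image continuous_snd, hM, fun u v hv => ?_⟩
  by_contra hne
  exact hv ⟨(u, v), subset_tsupport _ hne, rfl⟩

theorem int_param {G : ℝ × ℝ → ℂ} (hG : Continuous G) (hc : HasCompactSupport G) (B : Set ℝ)
    (u : ℝ) : IntegrableOn (fun v => G (u, v)) B := by
  obtain ⟨M, K, hK, hM, h0⟩ := bound_of hG hc
  refine Integrable.integrableOn ?_
  refine (hG.comp (by fun_prop : Continuous fun v : ℝ => (u, v))).integrable_of_hasCompactSupport ?_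
  exact HasCompactSupport.intro hK fun v hv => h0 u v hv

theorem der_param {G : ℝ × ℝ → ℂ} (hG : ContDiff ℝ (⊤ : ℕ∞) G) (hc : HasCompactSupport G)
    (B : Set ℝ) (u : ℝ) : HasDerivAt (fun u => ∫ v in B, G (u, v))
      (∫ v in B, fderiv ℝ G (u, v) (1, 0)) u := by
  have hG' : Continuous (fun z => fderiv ℝ G z (1, 0)) :=
    (hG.continuous_fderiv (by simp)).clm_apply continuous_const
  have hc' : HasCompactSupport (fun z => fderiv ℝ G z (1, 0)) := hc.fderiv_apply ℝ (1, 0)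
  obtain ⟨M, K, hK, hM, h0⟩ := bound_of hG' hc'
  have h := hasDerivAt_integral_of_dominated_loc_of_deriv_le (μ := volume.restrict B)
    (F := fun u v => G (u, v)) (F' := fun u v => fderiv ℝ G (u, v) (1, 0)) (x₀ := u)
    (bound := K.indicator (fun _ => M)) (s := univ) univ_mem
    (Eventually.of_forall fun u =>
      (hG.continuous.comp (by fun_prop : Continuous fun v : ℝ => (u, v))).aestronglyMeasurable)
    (int_param hG.continuous hc B u)
    (hG'.comp (by fun_prop : Continuous fun v : ℝ => (u, v))).aestronglyMeasurable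
    (Eventually.of_forall fun v w _ => by
      by_cases hv : v ∈ K
      · rw [indicator_of_mem hv]
        exact hM _
      · rw [indicator_of_notMem hv]
        rw [h0 w v hv, norm_zero])
    (by
      refine Integrable.integrableOn ?_
      rw [integrable_indicator_iff hK.measurableSet]
      exact integrableOn_const hK.measure_lt_top.ne)
    (Eventually.of_forall fun v w _ => by
      have h1 : HasFDerivAt G (fderiv ℝ G (w, v)) (w, v) :=
        ((hG.differentiable (by simp)) (w, v)).hasFDerivAt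
      have h2 : HasDerivAt (fun w : ℝ => (w, v)) ((1 : ℝ), (0 : ℝ)) w :=
        (hasDerivAt_id w).prodMk (hasDerivAt_const w v)
      exact h1.comp_hasDerivAt w h2)
  exact h.2

theorem smooth_param (n : ℕ) : ∀ G : ℝ × ℝ → ℂ, ContDiff ℝ (⊤ : ℕ∞) G → HasCompactSupport G →
    ∀ B : Set ℝ, ContDiff ℝ n (fun u => ∫ v in B, G (u, v)) := by
  induction n with
  | zero =>
    intro G hG hc B
    rw [Nat.cast_zero, contDiff_zero]
    have hd : Differentiable ℝ (fun u => ∫ v in B, G (u, v)) := fun u =>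
      (der_param hG hc B u).differentiableAt
    exact hd.continuous
  | succ n ih =>
    intro G hG hc B
    rw [Nat.cast_succ, contDiff_succ_iff_deriv]
    refine ⟨fun u => (der_param hG hc B u).differentiableAt, by simp, ?_⟩
    have e : deriv (fun u => ∫ v in B, G (u, v)) = fun u => ∫ v in B, fderiv ℝ G (u, v) (1, 0) :=
      funext fun u => (der_param hG hc B u).deriv
    rw [e]
    exact ih (fun z => fderiv ℝ G z (1, 0))
      ((hG.fderiv_right (m := (⊤ : ℕ∞)) (by norm_cast)).clm_apply contDiff_const)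
      (hc.fderiv_apply ℝ (1, 0)) B

theorem smooth_param' {G : ℝ × ℝ → ℂ} (hG : ContDiff ℝ (⊤ : ℕ∞) G) (hc : HasCompactSupport G)
    (B : Set ℝ) : ContDiff ℝ (⊤ : ℕ∞) (fun u => ∫ v in B, G (u, v)) :=
  contDiff_infty.2 fun n => smooth_param n G hG hc B

theorem supp_param {G : ℝ × ℝ → ℂ} (hc : HasCompactSupport G) (B : Set ℝ) :
    HasCompactSupport (fun u => ∫ v in B, G (u, v)) := by
  refine HasCompactSupport.intro (hc.image continuous_fst) fun u hu => ?_
  have : ∀ v, G (u, v) = 0 := by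
    intro v
    by_contra hne
    exact hu ⟨(u, v), subset_tsupport _ hne, rfl⟩
  simp_rw [this]
  simp

/-! ### The formula for a product set -/

theorem ee_smooth : ContDiff ℝ (⊤ : ℕ∞) ee := by
  unfold ee
  exact (Complex.ofRealCLM.contDiff.mul contDiff_const).cexp

theorem G_smooth {f : ℝ × ℝ → ℂ} {h : ℝ × ℝ → ℝ} (hf : ContDiff ℝ (⊤ : ℕ∞) f)
    (hh : ContDiff ℝ (⊤ : ℕ∞) h) (x2 t : ℝ) :
    ContDiff ℝ (⊤ : ℕ∞) (fun y : ℝ × ℝ => f y * ee (x2 * y.2 + t * h y)) :=
  hf.mul (ee_smooth.comp ((contDiff_const.mul contDiff_snd).add (contDiff_const.mul hh)))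

theorem EE_formula {f : ℝ × ℝ → ℂ} {h : ℝ × ℝ → ℝ} (hf : ContDiff ℝ (⊤ : ℕ∞) f)
    (hc : HasCompactSupport f) (hh : ContDiff ℝ (⊤ : ℕ∞) h) {A B : Set ℝ} (hA : MeasurableSet A)
    (hB : MeasurableSet B) (x : ℝ × ℝ) (t : ℝ) :
    EE h ((A ×ˢ B).indicator f) x t = ∫ y1 in A,
      (∫ y2 in B, f (y1, y2) * ee (x.2 * y2 + t * h (y1, y2))) * ee (x.1 * y1) := by
  unfold EE
  have e1 : ∀ y : ℝ × ℝ, (A ×ˢ B).indicator f y * ee (x.1 * y.1 + x.2 * y.2 + t * h y)
      = (A ×ˢ B).indicator (fun y => (f y * ee (x.2 * y.2 + t * h y)) * ee (x.1 * y.1)) y := by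
    intro y
    by_cases hy : y ∈ A ×ˢ B
    · rw [indicator_of_mem hy, indicator_of_mem hy, mul_assoc, ← ee_add]
      congr 2
      ring
    · rw [indicator_of_notMem hy, indicator_of_notMem hy, zero_mul]
  simp_rw [e1]
  rw [integral_indicator (hA.prod hB)]
  have hcont : Continuous (fun y : ℝ × ℝ => (f y * ee (x.2 * y.2 + t * h y)) * ee (x.1 * y.1)) :=
    (G_smooth hf hh x.2 t).continuous.mul (ee_cont.comp (by fun_prop))
  have hcs : HasCompactSupport
      (fun y : ℝ × ℝ => (f y * ee (x.2 * y.2 + t * h y)) * ee (x.1 * y.1)) :=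
    (hc.mul_right).mul_right
  have hi : IntegrableOn (fun y : ℝ × ℝ => (f y * ee (x.2 * y.2 + t * h y)) * ee (x.1 * y.1))
      (A ×ˢ B) volume := (hcont.integrable_of_hasCompactSupport hcs).integrableOn
  rw [Measure.volume_eq_prod] at hi ⊢
  rw [setIntegral_prod _ hi]
  refine setIntegral_congr_fun hA fun y1 _ => ?_
  exact integral_mul_const (ee (x.1 * y1))
    (fun y2 => f (y1, y2) * ee (x.2 * y2 + t * h (y1, y2)))

theorem lint_order (G : (ℝ × ℝ) × ℝ → ℝ≥0∞) (hG : Measurable G) :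
    ∫⁻ z, G z = ∫⁻ t : ℝ, ∫⁻ x2 : ℝ, ∫⁻ x1 : ℝ, G ((x1, x2), t) := by
  rw [Measure.volume_eq_prod, lintegral_prod_symm _ hG.aemeasurable]
  refine lintegral_congr fun t => ?_
  rw [Measure.volume_eq_prod, lintegral_prod_symm]
  exact (hG.comp (by fun_prop)).aemeasurable

/-- the inequality of Riesz with constant `C` -/
def Rz (p C : ℝ) : Prop := ∀ φ : ℝ → ℂ, ContDiff ℝ (⊤ : ℕ∞) φ →
    HasCompactSupport φ → ∀ c : ℝ,
    ∫⁻ x : ℝ, ‖∫ y in Ici c, φ y * ee (x * y)‖ₑ ^ p ≤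
      ENNReal.ofReal C * ∫⁻ x : ℝ, ‖∫ y, φ y * ee (x * y)‖ₑ ^ p

theorem half {p C : ℝ} (hR : Rz p C) {f : ℝ × ℝ → ℂ} {h : ℝ × ℝ → ℝ}
    (hf : ContDiff ℝ (⊤ : ℕ∞) f) (hc : HasCompactSupport f) (hh : ContDiff ℝ (⊤ : ℕ∞) h)
    {B : Set ℝ} (hB : MeasurableSet B) (c : ℝ) :
    ∫⁻ z : (ℝ × ℝ) × ℝ, ‖EE h ((Ici c ×ˢ B).indicator f) z.1 z.2‖ₑ ^ p
      ≤ ENNReal.ofReal C *
        ∫⁻ z : (ℝ × ℝ) × ℝ, ‖EE h ((univ ×ˢ B).indicator f) z.1 z.2‖ₑ ^ p := by
  have hm1 : Measurable (fun z : (ℝ × ℝ) × ℝ =>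
      ‖EE h ((Ici c ×ˢ B).indicator f) z.1 z.2‖ₑ ^ p) :=
    ((EE_meas (hf.continuous.measurable.indicator (measurableSet_Ici.prod hB))
      hh.continuous.measurable).enorm).pow_const p
  have hm2 : Measurable (fun z : (ℝ × ℝ) × ℝ =>
      ‖EE h ((univ ×ˢ B).indicator f) z.1 z.2‖ₑ ^ p) :=
    ((EE_meas (hf.continuous.measurable.indicator (MeasurableSet.univ.prod hB))
      hh.continuous.measurable).enorm).pow_const p
  rw [lint_order _ hm1, lint_order _ hm2, ← lintegral_const_mul' _ _ ENNReal.ofReal_ne_top]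
  refine lintegral_mono fun t => ?_
  rw [← lintegral_const_mul' _ _ ENNReal.ofReal_ne_top]
  refine lintegral_mono fun x2 => ?_
  beta_reduce
  have hφ := smooth_param' (G_smooth hf hh x2 t) (hc.mul_right) B
  have hφc := supp_param (G := fun y : ℝ × ℝ => f y * ee (x2 * y.2 + t * h y)) (hc.mul_right) B
  have key := hR _ hφ hφc c
  simp_rw [EE_formula hf hc hh measurableSet_Ici hB, EE_formula hf hc hh MeasurableSet.univ hB,
    Measure.restrict_univ]
  exact key

theorem strip {p C : ℝ} (hp : 1 < p) (hR : Rz p C) {f : ℝ × ℝ → ℂ} {h : ℝ × ℝ → ℝ}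
    (hf : ContDiff ℝ (⊤ : ℕ∞) f) (hc : HasCompactSupport f) (hh : ContDiff ℝ (⊤ : ℕ∞) h)
    {B : Set ℝ} (hB : MeasurableSet B) (a b : ℝ) :
    eLpNorm (fun z : (ℝ × ℝ) × ℝ => EE h ((Icc a b ×ˢ B).indicator f) z.1 z.2)
      (ENNReal.ofReal p) volume ≤ 2 * ENNReal.ofReal C ^ (1 / p) *
    eLpNorm (fun z : (ℝ × ℝ) × ℝ => EE h ((univ ×ˢ B).indicator f) z.1 z.2)
      (ENNReal.ofReal p) volume := by
  have hp0 : 0 < p := by linarith
  have hpne : ENNReal.ofReal p ≠ 0 := by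
    rw [Ne, ENNReal.ofReal_eq_zero, not_le]; exact hp0
  rcases lt_or_ge b a with hab | hab
  · have : (fun z : (ℝ × ℝ) × ℝ => EE h ((Icc a b ×ˢ B).indicator f) z.1 z.2) = 0 := by
      funext z
      rw [Icc_eq_empty (by linarith), empty_prod, indicator_empty]
      unfold EE
      simp
    rw [this, eLpNorm_zero]
    exact zero_le
  have hm : ∀ c, Measurable (fun z : (ℝ × ℝ) × ℝ => EE h ((Ici c ×ˢ B).indicator f) z.1 z.2) :=
    fun c => EE_meas (hf.continuous.measurable.indicator (measurableSet_Ici.prod hB))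
      hh.continuous.measurable
  have hhalf : ∀ c, eLpNorm (fun z : (ℝ × ℝ) × ℝ => EE h ((Ici c ×ˢ B).indicator f) z.1 z.2)
      (ENNReal.ofReal p) volume ≤ ENNReal.ofReal C ^ (1 / p) *
    eLpNorm (fun z : (ℝ × ℝ) × ℝ => EE h ((univ ×ˢ B).indicator f) z.1 z.2)
      (ENNReal.ofReal p) volume := by
    intro c
    rw [eLpNorm_eq_lintegral_rpow_enorm_toReal hpne ENNReal.ofReal_ne_top,
      eLpNorm_eq_lintegral_rpow_enorm_toReal hpne ENNReal.ofReal_ne_top,
      ENNReal.toReal_ofReal hp0.le, ← ENNReal.mul_rpow_of_nonneg _ _ (by positivity)]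
    exact ENNReal.rpow_le_rpow (half hR hf hc hh hB c) (by positivity)
  have hdec : (fun z : (ℝ × ℝ) × ℝ => EE h ((Icc a b ×ˢ B).indicator f) z.1 z.2)
      = (fun z : (ℝ × ℝ) × ℝ => EE h ((Ici a ×ˢ B).indicator f) z.1 z.2)
        - fun z : (ℝ × ℝ) × ℝ => EE h ((Ici b ×ˢ B).indicator f) z.1 z.2 := by
    funext z
    rw [Pi.sub_apply, EE_formula hf hc hh measurableSet_Ici hB,
      EE_formula hf hc hh measurableSet_Ici hB, EE_formula hf hc hh measurableSet_Icc hB,
      ← Icc_union_Ioi_eq_Ici hab]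
    have hg : Integrable (fun y1 => (∫ y2 in B, f (y1, y2) *
        ee (z.1.2 * y2 + z.2 * h (y1, y2))) * ee (z.1.1 * y1)) := by
      have hφ := smooth_param' (G_smooth hf hh z.1.2 z.2) (hc.mul_right) B
      have hφc := supp_param (G := fun y : ℝ × ℝ => f y * ee (z.1.2 * y.2 + z.2 * h y))
        (hc.mul_right) B
      exact (hφ.continuous.mul (ee_cont.comp (by fun_prop))).integrable_of_hasCompactSupport
        hφc.mul_right
    have hdj : Disjoint (Icc a b) (Ioi b) :=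
      disjoint_left.2 fun y (h1 : y ∈ Icc a b) (h2 : y ∈ Ioi b) => absurd h1.2 (not_le.2 h2)
    rw [setIntegral_union hdj
      measurableSet_Ioi hg.integrableOn hg.integrableOn, integral_Ici_eq_integral_Ioi (x := b)]
    ring
  rw [hdec]
  refine (eLpNorm_sub_le (hm a).aestronglyMeasurable (hm b).aestronglyMeasurable ?_).trans ?_
  · rw [← ENNReal.ofReal_one]
    exact ENNReal.ofReal_le_ofReal hp.le
  · refine (add_le_add (hhalf a) (hhalf b)).trans (le_of_eq ?_)
    rw [← two_mul, mul_assoc]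

theorem EE_swap (h : ℝ × ℝ → ℝ) (f : ℝ × ℝ → ℂ) (x : ℝ × ℝ) (t : ℝ) :
    EE (fun y => h y.swap) (fun y => f y.swap) x.swap t = EE h f x t := by
  unfold EE
  have h1 := integral_prod_swap (μ := (volume : Measure ℝ)) (ν := (volume : Measure ℝ))
    (fun y : ℝ × ℝ => f y * ee (x.1 * y.1 + x.2 * y.2 + t * h y))
  rw [Measure.volume_eq_prod]
  refine Eq.trans ?_ h1
  congr 1
  funext y
  congr 2
  simp only [Prod.fst_swap, Prod.snd_swap]
  ring

theorem eLp_swap (U : (ℝ × ℝ) × ℝ → ℂ) (hU : Measurable U) (p : ℝ≥0∞) :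
    eLpNorm (fun z : (ℝ × ℝ) × ℝ => U (z.1.swap, z.2)) p volume = eLpNorm U p volume := by
  have h1 : MeasurePreserving (fun z : (ℝ × ℝ) × ℝ => (z.1.swap, z.2)) volume volume := by
    have h2 : MeasurePreserving (Prod.swap : ℝ × ℝ → ℝ × ℝ) volume volume := by
      rw [Measure.volume_eq_prod]
      exact Measure.measurePreserving_swap
    exact h2.prod (MeasurePreserving.id volume)
  exact eLpNorm_comp_measurePreserving hU.aestronglyMeasurable h1

theorem rect_thm (h1 : S_riesz) : S_rect := by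
  intro p hp
  obtain ⟨C, hC0, hR⟩ := h1 p hp
  have hR' : Rz p C := hR
  set c0 : ℝ≥0∞ := 2 * ENNReal.ofReal C ^ (1 / p) with hc0
  have hp0 : 0 < p := by linarith
  have hc0t : c0 ≠ ∞ := ENNReal.mul_ne_top (by norm_num)
    (ENNReal.rpow_ne_top_of_nonneg (by positivity) ENNReal.ofReal_ne_top)
  refine ⟨(c0 * c0).toReal, ENNReal.toReal_nonneg, fun h f hh hf hc a b c d => ?_⟩
  rw [ENNReal.ofReal_toReal (ENNReal.mul_ne_top hc0t hc0t)]
  -- first direction
  have s1 := strip hp hR' hf hc hh (B := univ) MeasurableSet.univ a b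
  rw [univ_prod_univ, indicator_univ] at s1
  -- second direction
  have hfs : ContDiff ℝ (⊤ : ℕ∞) (fun y : ℝ × ℝ => f y.swap) :=
    hf.comp (contDiff_snd.prodMk contDiff_fst)
  have hhs : ContDiff ℝ (⊤ : ℕ∞) (fun y : ℝ × ℝ => h y.swap) :=
    hh.comp (contDiff_snd.prodMk contDiff_fst)
  have hcs : HasCompactSupport (fun y : ℝ × ℝ => f y.swap) :=
    hc.comp_homeomorph (Homeomorph.prodComm ℝ ℝ)
  have s2 := strip hp hR' hfs hcs hhs (B := Icc a b) measurableSet_Icc c d
  have e1 : ∀ A : Set ℝ, eLpNorm (fun z : (ℝ × ℝ) × ℝ => EE (fun y => h y.swap)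
      ((A ×ˢ Icc a b).indicator (fun y : ℝ × ℝ => f y.swap)) z.1 z.2) (ENNReal.ofReal p) volume
      = eLpNorm (fun z : (ℝ × ℝ) × ℝ => EE (fun y => h y.swap)
      (fun y => (Icc a b ×ˢ A).indicator f y.swap) z.1 z.2) (ENNReal.ofReal p) volume := by
    intro A
    congr 1
    funext z
    congr 1
    funext y
    by_cases hy : y ∈ A ×ˢ Icc a b
    · rw [indicator_of_mem hy, indicator_of_mem]
      exact ⟨hy.2, hy.1⟩
    · rw [indicator_of_notMem hy, indicator_of_notMem]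
      exact fun h' => hy ⟨h'.2, h'.1⟩
  have e2 : ∀ A : Set ℝ, MeasurableSet A → eLpNorm (fun z : (ℝ × ℝ) × ℝ => EE (fun y => h y.swap)
      (fun y => (Icc a b ×ˢ A).indicator f y.swap) z.1 z.2) (ENNReal.ofReal p) volume
      = eLpNorm (fun z : (ℝ × ℝ) × ℝ => EE h ((Icc a b ×ˢ A).indicator f) z.1 z.2)
        (ENNReal.ofReal p) volume := by
    intro A hA
    have hm : Measurable (fun z : (ℝ × ℝ) × ℝ => EE h ((Icc a b ×ˢ A).indicator f) z.1 z.2) :=
      EE_meas (hf.continuous.measurable.indicator (measurableSet_Icc.prod hA))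
        hh.continuous.measurable
    rw [← eLp_swap _ hm]
    congr 1
    funext z
    have := EE_swap h ((Icc a b ×ˢ A).indicator f) z.1.swap z.2
    rw [Prod.swap_swap] at this
    exact this
  rw [e1, e1, e2 _ measurableSet_Icc, e2 _ MeasurableSet.univ] at s2
  calc _ ≤ c0 * eLpNorm (fun z : (ℝ × ℝ) × ℝ => EE h ((Icc a b ×ˢ univ).indicator f) z.1 z.2)
        (ENNReal.ofReal p) volume := s2
    _ ≤ c0 * (c0 * eLpNorm (fun z : (ℝ × ℝ) × ℝ => EE h f z.1 z.2)
        (ENNReal.ofReal p) volume) := mul_le_mul_right s1 _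
    _ = _ := by rw [← mul_assoc]

end Pool.Agent.W12.PC
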