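import Pool.Agent.W12.PC.Norm

set_option autoImplicit false

/-!
PC-scale: parabolic rescaling (helper12).
-/

open MeasureTheory Set Filter Topology
open scoped ENNReal NNReal

namespace Pool.Agent.W12.PC

open Pool.Agent.W770.PC

theorem lint_aff {E : Type*} [NormedAddCommGroup E] [NormedSpace ℝ E] [MeasurableSpace E]
    [BorelSpace E] [FiniteDimensional ℝ E] (μ : Measure E) [μ.IsAddHaarMeasure]
    (G : E → ℝ≥0∞) (hG : Measurable G) {s : ℝ} (hs : 0 < s) (y : E) :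
    ∫⁻ z, G (y + s • z) ∂μ = ENNReal.ofReal ((s ^ Module.finrank ℝ E)⁻¹) * ∫⁻ z, G z ∂μ := by
  have h1 : Measure.map (fun z : E => s • z) μ
      = ENNReal.ofReal ((s ^ Module.finrank ℝ E)⁻¹) • μ := by
    have := Measure.map_addHaar_smul μ hs.ne'
    rwa [abs_of_pos (by positivity)] at this
  have h2 : ∫⁻ z, G (y + s • z) ∂μ
      = ∫⁻ z, G (y + z) ∂(Measure.map (fun z : E => s • z) μ) :=
    (lintegral_map (hG.comp (measurable_const_add y)) (measurable_const_smul s)).symm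
  rw [h2, h1, lintegral_smul_measure, lintegral_add_left_eq_self, smul_eq_mul]

theorem int_aff {F : Type*} [NormedAddCommGroup F] [NormedSpace ℝ F] (f : ℝ × ℝ → F) {s : ℝ}
    (hs : 0 < s) (w : ℝ × ℝ) : ∫ y, f y = (s ^ 2) • ∫ v, f (w + s • v) := by
  have h1 := Measure.integral_comp_smul (volume : Measure (ℝ × ℝ)) (fun u => f (w + u)) s
  have h2 : ∫ u, f (w + u) = ∫ u, f u := integral_add_left_eq_self _ w
  have hd : Module.finrank ℝ (ℝ × ℝ) = 2 := by simp
  rw [hd, h2, abs_of_pos (by positivity)] at h1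
  rw [h1, smul_smul, mul_inv_cancel₀ (by positivity), one_smul]

theorem ee_add (x y : ℝ) : ee (x + y) = ee x * ee y := by
  unfold ee
  rw [← Complex.exp_add]
  congr 1
  push_cast
  ring

theorem norm_ee' (x : ℝ) : ‖ee x‖ = 1 := by
  unfold ee
  exact Complex.norm_exp_ofReal_mul_I x

theorem ee_cont : Continuous ee := by
  unfold ee
  fun_prop

theorem deg_PL {D : ℕ} (c : CV D) : (PL c).totalDegree ≤ 2 * D := by
  unfold PL
  refine MvPolynomial.totalDegree_finsetSum_le fun p _ => ?_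
  refine (MvPolynomial.totalDegree_monomial_le _ _).trans ?_
  rw [Finsupp.sum_fintype _ _ (by simp)]
  simp [mm, Fin.sum_univ_two]
  omega

/-- the paraboloid -/
abbrev qq : ℝ × ℝ → ℝ := fun y => y.1 ^ 2 + y.2 ^ 2

theorem EE_meas {f : ℝ × ℝ → ℂ} (hf : Measurable f) {h : ℝ × ℝ → ℝ} (hh : Measurable h) :
    Measurable (fun z : (ℝ × ℝ) × ℝ => EE h f z.1 z.2) := by
  have h1 : StronglyMeasurable (fun w : ((ℝ × ℝ) × ℝ) × (ℝ × ℝ) =>
      f w.2 * ee (w.1.1.1 * w.2.1 + w.1.1.2 * w.2.2 + w.1.2 * h w.2)) := by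
    refine Measurable.stronglyMeasurable ?_
    refine (hf.comp measurable_snd).mul (ee_cont.measurable.comp ?_)
    have : Measurable (fun w : ((ℝ × ℝ) × ℝ) × (ℝ × ℝ) => h w.2) := hh.comp measurable_snd
    fun_prop
  exact h1.integral_prod_right'.measurable

/-- the change of variables -/
theorem lint_T (G : (ℝ × ℝ) × ℝ → ℝ≥0∞) (hG : Measurable G) {s : ℝ} (hs : 0 < s) (α : ℝ × ℝ) :
    ∫⁻ z : (ℝ × ℝ) × ℝ, G (s • z.1 + (2 * s * z.2) • α, s ^ 2 * z.2)
      = ENNReal.ofReal ((s ^ 4)⁻¹) * ∫⁻ z, G z := by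
  have hm : Measurable (fun z : (ℝ × ℝ) × ℝ => G (s • z.1 + (2 * s * z.2) • α, s ^ 2 * z.2)) := by
    refine hG.comp ?_
    fun_prop
  have hd : Module.finrank ℝ (ℝ × ℝ) = 2 := by simp
  have hd1 : Module.finrank ℝ ℝ = 1 := by simp
  rw [Measure.volume_eq_prod, lintegral_prod_symm _ hm.aemeasurable,
    lintegral_prod_symm _ hG.aemeasurable]
  have e1 : ∀ t : ℝ, ∫⁻ x : ℝ × ℝ, G (s • (x, t).1 + (2 * s * (x, t).2) • α, s ^ 2 * (x, t).2)
      = ENNReal.ofReal ((s ^ 2)⁻¹) * ∫⁻ x : ℝ × ℝ, G (x, s ^ 2 * t) := by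
    intro t
    have h1 := lint_aff (volume : Measure (ℝ × ℝ)) (fun x => G (x, s ^ 2 * t))
      (hG.comp (by fun_prop)) hs ((2 * s * t) • α)
    rw [hd] at h1
    rw [← h1]
    refine lintegral_congr fun x => ?_
    rw [add_comm ((2 * s * t) • α)]
  simp_rw [e1]
  rw [lintegral_const_mul' _ _ ENNReal.ofReal_ne_top]
  have hm2 : Measurable (fun t : ℝ => ∫⁻ x : ℝ × ℝ, G (x, t)) := hG.lintegral_prod_left'
  have h2 := lint_aff (volume : Measure ℝ) (fun t => ∫⁻ x : ℝ × ℝ, G (x, t)) hm2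
    (by positivity : 0 < s ^ 2) 0
  rw [hd1, pow_one] at h2
  simp only [zero_add, smul_eq_mul] at h2
  rw [h2, ← mul_assoc, ← ENNReal.ofReal_mul (by positivity)]
  congr 2
  rw [← mul_inv]
  congr 1
  ring

theorem scale_thm (h1 : S_unit) (h2 : S_dpf) : S_scale := by
  intro p D hp
  obtain ⟨K, hK0, hK⟩ := h1 p (2 * D) hp
  refine ⟨4 * K, by positivity, fun P hP a b c d r hr hab hcd => ?_⟩
  set s : ℝ := 2 * r with hs
  have hs0 : 0 < s := by positivity
  set α : ℝ × ℝ := (a - r / 2, c - r / 2) with hα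
  set cP : CV D := fun q => MvPolynomial.coeff (mm q) P with hcP
  have hPc : P = PL cP := eq_PL P hP
  set P' : MvPolynomial (Fin 2) ℝ := PL (sub α s cP) with hP'
  have hpf : ∀ v, pf P' v = pf P (α + s • v) := by
    intro v
    rw [hP', pf_PL, FF_sub, ← pf_PL, ← hPc]
  set a' : ℝ := 1 / 4 with ha'
  set b' : ℝ := (b - a) / s + 1 / 4 with hb'
  set d' : ℝ := (d - c) / s + 1 / 4 with hd'
  have hb'1 : b' ≤ 3 / 4 := by
    have : (b - a) / s ≤ 1 / 2 := by
      rw [div_le_iff₀ hs0]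
      linarith
    linarith
  have hd'1 : d' ≤ 3 / 4 := by
    have : (d - c) / s ≤ 1 / 2 := by
      rw [div_le_iff₀ hs0]
      linarith
    linarith
  have hu := hK P' (deg_PL _) a' b' a' d' le_rfl hb'1 le_rfl hd'1
  set R : Set (ℝ × ℝ) := Icc a b ×ˢ Icc c d with hR
  set R' : Set (ℝ × ℝ) := Icc a' b' ×ˢ Icc a' d' with hR'
  have hmem : ∀ v : ℝ × ℝ, α + s • v ∈ R ↔ v ∈ R' := by
    intro v
    rw [hR, hR', mem_prod, mem_prod, mem_Icc, mem_Icc, mem_Icc, mem_Icc]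
    have e1 : (α + s • v).1 = a - r / 2 + s * v.1 := rfl
    have e2 : (α + s • v).2 = c - r / 2 + s * v.2 := rfl
    rw [e1, e2]
    have e3 : ∀ x y z : ℝ, (z ≤ (y - x) / s + 1 / 4) ↔ x - r / 2 + s * z ≤ y := by
      intro x y z
      rw [← sub_le_iff_le_add, le_div_iff₀ hs0]
      constructor
      · intro h
        nlinarith
      · intro h
        nlinarith
    have e4 : ∀ x z : ℝ, (1 / 4 ≤ z) ↔ x ≤ x - r / 2 + s * z := by
      intro x z
      constructor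
      · intro h
        nlinarith
      · intro h
        have : r / 2 ≤ s * z := by linarith
        rw [hs] at this
        nlinarith
    rw [hb', hd', ha', e3 a b, e3 c d, ← e4 a, ← e4 c]
  set f : ℝ × ℝ → ℂ := R.indicator (fun y => ee (pf P y)) with hf
  set f' : ℝ × ℝ → ℂ := R'.indicator (fun y => ee (pf P' y)) with hf'
  have hff : ∀ v, f (α + s • v) = f' v := by
    intro v
    by_cases hv : v ∈ R'
    · rw [hf, hf', indicator_of_mem hv, indicator_of_mem ((hmem v).2 hv), hpf]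
    · rw [hf, hf', indicator_of_notMem hv, indicator_of_notMem (fun h => hv ((hmem v).1 h))]
  -- the pointwise identity
  have key : ∀ z : (ℝ × ℝ) × ℝ, ‖EE qq f z.1 z.2‖ₑ
      = ENNReal.ofReal (s ^ 2) * ‖EE qq f' (s • z.1 + (2 * s * z.2) • α) (s ^ 2 * z.2)‖ₑ := by
    intro z
    have e1 : EE qq f z.1 z.2 = (s ^ 2) • (ee (z.1.1 * α.1 + z.1.2 * α.2 + z.2 * qq α) *
        EE qq f' (s • z.1 + (2 * s * z.2) • α) (s ^ 2 * z.2)) := by
      unfold EE
      rw [int_aff _ hs0 α, ← integral_const_mul]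
      congr 2
      funext v
      rw [hff]
      rw [← mul_assoc, mul_comm (ee _) (f' v), mul_assoc, ← ee_add]
      congr 2
      change z.1.1 * (α.1 + s * v.1) + z.1.2 * (α.2 + s * v.2)
          + z.2 * ((α.1 + s * v.1) ^ 2 + (α.2 + s * v.2) ^ 2)
        = z.1.1 * α.1 + z.1.2 * α.2 + z.2 * (α.1 ^ 2 + α.2 ^ 2)
          + ((s * z.1.1 + 2 * s * z.2 * α.1) * v.1 + (s * z.1.2 + 2 * s * z.2 * α.2) * v.2
            + s ^ 2 * z.2 * (v.1 ^ 2 + v.2 ^ 2))
      ring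
    rw [e1, enorm_smul, enorm_mul]
    have e2 : ‖ee (z.1.1 * α.1 + z.1.2 * α.2 + z.2 * qq α)‖ₑ = 1 := by
      rw [← ofReal_norm, norm_ee', ENNReal.ofReal_one]
    rw [e2, one_mul]
    congr 1
    rw [← ofReal_norm, Real.norm_of_nonneg (by positivity)]
  have hp0 : 0 < p := by linarith
  have hpne : ENNReal.ofReal p ≠ 0 := by
    rw [Ne, ENNReal.ofReal_eq_zero, not_le]; exact hp0
  have hRm : MeasurableSet R' := measurableSet_Icc.prod measurableSet_Icc
  have hpfm : Continuous (pf P') := (h2 P').1.continuous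
  have hf'm : Measurable f' := (ee_cont.comp hpfm).measurable.indicator hRm
  have hqm : Measurable qq := by fun_prop
  have hu'm := EE_meas hf'm hqm
  have hGm : Measurable (fun z : (ℝ × ℝ) × ℝ => ‖EE qq f' z.1 z.2‖ₑ ^ p) :=
    hu'm.enorm.pow_const p
  have hL : ∫⁻ z : (ℝ × ℝ) × ℝ, ‖EE qq f z.1 z.2‖ₑ ^ p
      = ENNReal.ofReal (s ^ 2) ^ p * (ENNReal.ofReal ((s ^ 4)⁻¹) *
        ∫⁻ z : (ℝ × ℝ) × ℝ, ‖EE qq f' z.1 z.2‖ₑ ^ p) := by
    rw [← lint_T _ hGm hs0 α, ← lintegral_const_mul' _ _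
      (ENNReal.rpow_ne_top_of_nonneg hp0.le ENNReal.ofReal_ne_top)]
    refine lintegral_congr fun z => ?_
    rw [key z, ENNReal.mul_rpow_of_nonneg _ _ hp0.le]
  have hfinal : eLpNorm (fun z : (ℝ × ℝ) × ℝ => EE qq f z.1 z.2) (ENNReal.ofReal p) volume
      = ENNReal.ofReal (s ^ (2 - 4 / p)) *
        eLpNorm (fun z : (ℝ × ℝ) × ℝ => EE qq f' z.1 z.2) (ENNReal.ofReal p) volume := by
    rw [eLpNorm_eq_lintegral_rpow_enorm_toReal hpne ENNReal.ofReal_ne_top,
      eLpNorm_eq_lintegral_rpow_enorm_toReal hpne ENNReal.ofReal_ne_top,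
      ENNReal.toReal_ofReal hp0.le, hL, ENNReal.mul_rpow_of_nonneg _ _ (by positivity),
      ENNReal.mul_rpow_of_nonneg _ _ (by positivity), ← ENNReal.rpow_mul,
      mul_one_div_cancel hp0.ne', ENNReal.rpow_one, ← mul_assoc]
    congr 1
    rw [ENNReal.ofReal_rpow_of_pos (by positivity), ← ENNReal.ofReal_mul (by positivity)]
    congr 1
    rw [Real.rpow_sub hs0, div_eq_mul_inv]
    congr 1
    · rw [Real.rpow_two]
    · rw [← Real.rpow_natCast, ← Real.rpow_neg hs0.le, ← Real.rpow_mul hs0.le,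
        ← Real.rpow_neg hs0.le]
      congr 1
      push_cast
      ring
  change eLpNorm (fun z : (ℝ × ℝ) × ℝ => EE qq f z.1 z.2) (ENNReal.ofReal p) volume ≤ _
  rw [hfinal]
  have h3 : ENNReal.ofReal (s ^ (2 - 4 / p)) *
        eLpNorm (fun z : (ℝ × ℝ) × ℝ => EE qq f' z.1 z.2) (ENNReal.ofReal p) volume
      ≤ ENNReal.ofReal (s ^ (2 - 4 / p)) * ENNReal.ofReal K := mul_le_mul_right hu _
  refine h3.trans ?_
  rw [← ENNReal.ofReal_mul (by positivity)]
  refine ENNReal.ofReal_le_ofReal ?_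
  rw [hs, Real.mul_rpow (by norm_num) hr.le]
  have h4 : (2 : ℝ) ^ (2 - 4 / p) ≤ 4 := by
    calc (2 : ℝ) ^ (2 - 4 / p) ≤ (2 : ℝ) ^ (2 : ℝ) := by
          refine Real.rpow_le_rpow_of_exponent_le (by norm_num) ?_
          have : 0 ≤ 4 / p := by positivity
          linarith
      _ = 4 := by rw [Real.rpow_two]; norm_num
  have h5 : 0 ≤ r ^ (2 - 4 / p) := by positivity
  calc (2 : ℝ) ^ (2 - 4 / p) * r ^ (2 - 4 / p) * K ≤ 4 * r ^ (2 - 4 / p) * K := by gcongr
    _ = 4 * K * r ^ (2 - 4 / p) := by ring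

end Pool.Agent.W12.PC
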